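import Pool.Agent.R154.CookieWalk

/-!
# The cookie game: Grundy values of arithmetic progressions

`𝒢(a, a+1, …, a+n-1) = g(a+n)` whenever `a ≥ 1` and `n ≥ 2a-2`.
-/

set_option autoImplicit false

namespace Pool.Agent.Results.MP_c8e9c8_co.ArithmeticProgressions

open Pool.Agent.R154.Cookie

/-- The position obtained from `X` by choosing the heap `x`: the heap is removed, and every other
positive heap is lowered by one (heaps of size `0` stay at `0`). -/
def move (X : Multiset ℕ) (x : ℕ) : Multiset ℕ := (X.erase x).map fun y => y - 1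

/-- The Grundy value of a position of the cookie game: the least natural number that is not the
Grundy value of a position reached by a move, that is, by choosing a heap of positive size. -/
noncomputable def grundy (X : Multiset ℕ) : ℕ :=
  sInf {v : ℕ | ∀ x, ∀ _ : x ∈ X, 0 < x → grundy (move X x) ≠ v}
termination_by Multiset.card X
decreasing_by
  rw [move, Multiset.card_map]
  exact Multiset.card_erase_lt_of_mem (by assumption)

/-- The position with the heaps `a, a+1, …, a+n-1`. -/
def AP (a n : ℕ) : Multiset ℕ := (Multiset.range n).map fun i => a + i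

/-- The function `g`, given by the residue modulo `6`. -/
def g (m : ℕ) : ℕ :=
  if m % 6 = 1 ∨ m % 6 = 4 then 0
  else if m % 6 = 2 ∨ m % 6 = 5 then 1
  else if m % 6 = 3 then 2
  else 3

/-- A number that has the defining property of the Grundy value is the Grundy value. -/
lemma grundy_eq {X : Multiset ℕ} {v : ℕ} (h1 : ∀ x ∈ X, 0 < x → grundy (move X x) ≠ v)
    (h2 : ∀ u < v, ∃ x ∈ X, 0 < x ∧ grundy (move X x) = u) : grundy X = v := by
  rw [grundy]
  apply le_antisymm
  · exact Nat.sInf_le h1
  · refine le_csInf (s := {v : ℕ | ∀ x, ∀ _ : x ∈ X, 0 < x → grundy (move X x) ≠ v}) ⟨v, h1⟩ ?_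
    intro u hu
    by_contra hlt
    obtain ⟨x, hx, hx0, he⟩ := h2 u (not_le.mp hlt)
    exact hu x hx hx0 he

/-- A position is simple up to `D` if no positive size is repeated and all sizes are `≤ D`. -/
def Simp (X : Multiset ℕ) (D : ℕ) : Prop := (∀ y, 0 < y → X.count y ≤ 1) ∧ ∀ y ∈ X, y ≤ D

lemma mem_move {X : Multiset ℕ} {D x : ℕ} (h : Simp X D) (y : ℕ) (hy : 0 < y) :
    y ∈ move X x ↔ y + 1 ∈ X ∧ y + 1 ≠ x := by
  unfold move
  rw [Multiset.mem_map]
  constructor
  · rintro ⟨z, hz, rfl⟩
    have e : z - 1 + 1 = z := by omega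
    rw [e]
    refine ⟨Multiset.mem_of_mem_erase hz, ?_⟩
    rintro rfl
    have h1 := h.1 z (by omega)
    have h2 : 0 < (X.erase z).count z := Multiset.count_pos.mpr hz
    rw [Multiset.count_erase_self] at h2
    omega
  · rintro ⟨h1, h2⟩
    exact ⟨y + 1, (Multiset.mem_erase_of_ne h2).mpr h1, rfl⟩

lemma simp_move {X : Multiset ℕ} {D x : ℕ} (h : Simp X (D + 1)) : Simp (move X x) D := by
  constructor
  · intro y hy
    by_contra hcon
    push Not at hcon
    have h1 : (X.erase x).count (y + 1) ≤ 1 :=
      (Multiset.count_le_of_le _ (Multiset.erase_le x X)).trans (h.1 (y + 1) (by omega))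
    have h2 : (move X x).count y = (X.erase x).count (y + 1) := by
      unfold move
      rw [Multiset.count_map, Multiset.count, Multiset.countP_eq_card_filter]
      congr 1
      apply Multiset.filter_congr
      intro z _
      constructor
      · intro h; omega
      · intro h; omega
    omega
  · intro y hy
    obtain ⟨z, hz, rfl⟩ := Multiset.mem_map.mp hy
    have := h.2 z (Multiset.mem_of_mem_erase hz)
    omega

/-- The Grundy value of every position without repeated positive heaps. -/
theorem grundy_simple (D : ℕ) : ∀ X : Multiset ℕ, Simp X D →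
    grundy X = val (st (fun y => y ∈ X) D 0) := by
  induction D with
  | zero =>
    intro X h
    have : val (st (fun y => y ∈ X) 0 0) = 0 := rfl
    rw [this]
    refine grundy_eq (fun x hx h0 => ?_) (fun u hu => by omega)
    have := h.2 x hx
    omega
  | succ D ih =>
    intro X h
    have hop : ∀ x, grundy (move X x) = val (st (fun y => y ∈ move X x) D 0) := fun x =>
      ih _ (simp_move h)
    have hE := Ex_st (fun y => y ∈ X) D 0
    have hOpt : ∀ w, Opt (fun y => y ∈ X) D 0 w → ∃ x ∈ X, 0 < x ∧ grundy (move X x) = val w := by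
      rintro w ⟨x, h1, h2, h3, rfl⟩
      refine ⟨x, h3, by omega, ?_⟩
      rw [hop x]
      congr 1
      exact st_congr D 0 fun y hy => mem_move h y hy
    have hR0 := R0_st (fun y => y ∈ X) (fun y => y ∈ move X 1) D 0 (fun y hy => by
      rw [mem_move h y hy]
      exact ⟨fun h => h.1, fun h => ⟨h, by omega⟩⟩)
    have hbig : ∀ x ∈ X, 1 < x → val (st (fun y => y ∈ X) D 1) ≠ grundy (move X x) ∧
        val (stp 1 (st (fun y => y ∈ X) D 1)) ≠ grundy (move X x) := by
      intro x hx h1
      rw [hop x]
      have hxD := h.2 x hx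
      exact R1_final (R1_st (fun y => y ∈ X) (fun y => y ∈ move X x) x hx D 0 (by omega)
        (by omega) (fun y hy => mem_move h y hy))
    by_cases h1 : (1 : ℕ) ∈ X
    · rw [st_pos (P := fun y => y ∈ X) (t := 0) h1]
      refine grundy_eq (fun x hx h0 => ?_) (fun u hu => ?_)
      · by_cases hx1 : x = 1
        · subst hx1
          rw [hop 1]
          exact (R0_final hR0).symm
        · exact (hbig x hx (by omega)).1.symm
      · rcases Ex_final_elem hR0 hE u hu with ⟨w, hw, rfl⟩ | h2
        · exact hOpt w hw
        · exact ⟨1, h1, one_pos, by rw [hop 1]; exact h2⟩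
    · rw [st_neg (P := fun y => y ∈ X) (t := 0) h1]
      refine grundy_eq (fun x hx h0 => ?_) (fun u hu => ?_)
      · by_cases hx1 : x = 1
        · subst hx1; exact absurd hx h1
        · exact (hbig x hx (by omega)).2.symm
      · obtain ⟨w, hw, rfl⟩ := Ex_final_gap hR0.1 hE u hu
        exact hOpt w hw

theorem result (a n : ℕ) (ha : 1 ≤ a) (h : 2 * a - 2 ≤ n) :
    grundy (AP a n) = g (a + n) := by
  have hmem : ∀ y, y ∈ AP a n ↔ a ≤ y ∧ y < a + n := by
    intro y
    unfold AP
    rw [Multiset.mem_map]
    constructor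
    · rintro ⟨i, hi, rfl⟩
      have := Multiset.mem_range.mp hi
      omega
    · rintro ⟨h1, h2⟩
      exact ⟨y - a, Multiset.mem_range.mpr (by omega), by omega⟩
  have hS : Simp (AP a n) (n + (a - 1)) := by
    constructor
    · intro y _
      apply Multiset.nodup_iff_count_le_one.mp
      exact (Multiset.nodup_range n).map (fun i j hij => by simpa using hij)
    · intro y hy
      have := (hmem y).mp hy
      omega
  rw [grundy_simple _ _ hS]
  have h1 : st (fun y => y ∈ AP a n) n (0 + (a - 1)) = (0 + (a - 1) + n, 0) :=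
    st_full n _ fun y h1 h2 => (hmem y).mpr ⟨by omega, by omega⟩
  rw [st_down (a - 1) n 0 (by rw [h1]; simp only; omega), h1, val_zero]
  unfold g
  split_ifs <;> omega

end Pool.Agent.Results.MP_c8e9c8_co.ArithmeticProgressions
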